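import Mathlib
import Pool.Agent.Helper92.ABC.Assembly
import Pool.Agent.Helper1.SR.Cert
import Pool.Agent.Helper1.SR.St.ToolK
import Pool.Agent.Helper1.SR.St.PairA

set_option autoImplicit false

/-!
# The bound for every admissible box with an entry of small radical
-/

namespace Pool.Agent.Helper1.SR

open Finset Pool.Agent.Helper92.ABC

lemma dot_tri3 (f : ℕ → List ℤ) (k : Fin 3 → ℕ → ℕ) (h0 : (f 0).length = 6)
    (h1 : (f 1).length = 6) :
    dot (tri3 f) (vec k) = dot (f 0) (vec1 (k 0)) + dot (f 1) (vec1 (k 1)) +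
      dot (f 2) (vec1 (k 2)) := dot_vec _ _ _ k h0 h1

lemma dot_remL (S : ℕ) (k : ℕ → ℕ) :
    dot (remL S) (vec1 k) = ∑ i ∈ toSet S, ((i % 3 : ℕ) : ℤ) * (k i : ℤ) := by
  have h : Finset.Icc 1 5 = {1, 2, 3, 4, 5} := by decide
  rw [toSet, Finset.sum_filter, h]
  simp only [remL, vec1, dot, bt]
  rw [Finset.sum_insert (by decide), Finset.sum_insert (by decide), Finset.sum_insert (by decide),
    Finset.sum_insert (by decide), Finset.sum_singleton]
  simp only [Nat.reduceMod, Nat.cast_one, Nat.cast_ofNat, Nat.cast_zero]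
  split_ifs <;> ring

lemma remL_length (S : ℕ) : (remL S).length = 6 := rfl

lemma xL_length (T S : ℕ) : (xL T S).length = 6 := rfl

lemma dot_xL (T S : ℕ) (k : ℕ → ℕ) :
    dot (xL T S) (vec1 k) = (xc (toSet T) (toSet S) k : ℤ) := by
  rw [xL, dot_addL, dot_costL, dot_remL, xc]
  push_cast
  rfl

/-- The mass of an entry. -/
def ms (k : Fin 3 → ℕ → ℕ) (n : Fin 3) : ℤ := ∑ i ∈ full, (k n i : ℤ)

lemma dot_mass31 (k : Fin 3 → ℕ → ℕ) (n : Fin 3) : dot (massL 31) (vec1 (k n)) = ms k n := by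
  rw [dot_massL, toSet_full, ms]

lemma dot_mass0 (k : ℕ → ℕ) : dot (massL 0) (vec1 k) = 0 := by
  rw [dot_massL, toSet_zero, Finset.sum_empty]

lemma dot_subL (s : Fin 3) (k : Fin 3 → ℕ → ℕ) : dot (subL s.val) (vec k) = -144 * ms k s := by
  rw [subL, dot_tri3 _ _ (by rw [smulL_length]; rfl) (by rw [smulL_length]; rfl), dot_smulL,
    dot_smulL, dot_smulL]
  fin_cases s <;> simp [dot_mass31, dot_mass0]

lemma dot_baseS (s : Fin 3) (U0 U1 U2 : ℕ) (k : Fin 3 → ℕ → ℕ) :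
    dot (baseS s.val U0 U1 U2) (vec k) = 120 * (∑ i ∈ toSet U0, (k 0 i : ℤ) +
      ∑ i ∈ toSet U1, (k 1 i : ℤ) + ∑ i ∈ toSet U2, (k 2 i : ℤ)) - 144 * ms k s := by
  rw [baseS, dot_addL, dot_subL, dot_tri3 _ _ (by rw [smulL_length]; rfl)
    (by rw [smulL_length]; rfl), dot_smulL, dot_smulL, dot_smulL, dot_massL, dot_massL, dot_massL]
  simp only [sel, if_true, one_ne_zero, if_false, OfNat.ofNat_ne_zero, OfNat.ofNat_ne_one]
  ring

lemma toSet_co_add (T S : ℕ) (hT : T < 4) (hS : S = 0 ∨ S = 4 ∨ S = 8 ∨ S = 12) :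
    toSet (co (T + S)) = full \ (toSet T ∪ toSet S) := by
  rcases hS with rfl | rfl | rfl | rfl <;> interval_cases T <;> decide

lemma toSet_S (S : ℕ) (hS : S = 0 ∨ S = 4 ∨ S = 8 ∨ S = 12) : toSet S ⊆ {3, 4} := by
  rcases hS with rfl | rfl | rfl | rfl <;> decide

lemma toSet_disj (T S : ℕ) (hT : T < 4) (hS : S = 0 ∨ S = 4 ∨ S = 8 ∨ S = 12) :
    Disjoint (toSet T) (toSet S) := by
  rcases hS with rfl | rfl | rfl | rfl <;> interval_cases T <;> decide

/-- The index `q`. -/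
def qf (s : Fin 3) : Fin 3 := ![1, 0, 0] s

/-- The index `r`. -/
def rf (s : Fin 3) : Fin 3 := ![2, 2, 1] s

lemma dot_ktForm (s : Fin 3) (Tq Sq Tr Sr : ℕ) (cs cx cz cn : ℤ) (k : Fin 3 → ℕ → ℕ) :
    dot (ktForm s.val Tq Sq Tr Sr cs cx cz cn) (vec k) =
      120 * (∑ i ∈ toSet (co (Tq + Sq)), (k (qf s) i : ℤ) +
        ∑ i ∈ toSet (co (Tr + Sr)), (k (rf s) i : ℤ) + ms k s) - 144 * ms k s + cs * ms k s +
      cx * (xc (toSet Tq) (toSet Sq) (k (qf s)) + xc (toSet Tr) (toSet Sr) (k (rf s))) +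
      cz * (rc 3 (toSet Sq) (k (qf s)) + rc 3 (toSet Sr) (k (rf s))) +
      cn * rc 1 full (k (rf s)) := by
  have hl : ∀ (b c : Prop) [Decidable b] [Decidable c] (x y z : List ℤ), x.length = 6 →
      y.length = 6 → z.length = 6 → (if b then x else if c then y else z).length = 6 := by
    intro b c _ _ x y z hx hy hz
    split_ifs <;> assumption
  have e1 : ∀ c : ℤ, (smulL c (massL 31)).length = 6 := fun c => by rw [smulL_length]; rfl
  have e2 : ∀ T S : ℕ, (addL (smulL cx (xL T S)) (smulL cz (costL 3 S))).length = 6 := by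
    intro T S
    rw [addL_length] <;> simp only [smulL_length] <;> rfl
  have e3 : ∀ T S : ℕ, (addL (addL (smulL cx (xL T S)) (smulL cz (costL 3 S)))
      (smulL cn (costL 1 31))).length = 6 := by
    intro T S
    rw [addL_length, e2]
    rw [e2, smulL_length]
    rfl
  rw [ktForm, dot_addL, dot_addL, dot_subL,
    dot_tri3 _ _ (by rw [smulL_length]; rfl) (by rw [smulL_length]; rfl),
    dot_tri3 _ _ (hl _ _ _ _ _ (e1 _) (e2 _ _) (e3 _ _)) (hl _ _ _ _ _ (e1 _) (e2 _ _) (e3 _ _))]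
  fin_cases s
  · simp only [qf, rf, qi, ri]
    simp [dot_smulL, dot_addL, dot_mass31, dot_massL, dot_xL, dot_costL, toSet_full]
    rw [show (∑ i ∈ full, (k 0 i : ℤ)) = ms k 0 from rfl]
    ring
  · simp only [qf, rf, qi, ri]
    simp [dot_smulL, dot_addL, dot_mass31, dot_massL, dot_xL, dot_costL, toSet_full]
    rw [show (∑ i ∈ full, (k 1 i : ℤ)) = ms k 1 from rfl]
    ring
  · simp only [qf, rf, qi, ri]
    simp [dot_smulL, dot_addL, dot_mass31, dot_massL, dot_xL, dot_costL, toSet_full]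
    rw [show (∑ i ∈ full, (k 2 i : ℤ)) = ms k 2 from rfl]
    ring


lemma base_sound (Q W R : ℕ) (s : Fin 3) (k : Fin 3 → ℕ → ℕ) (h : ∀ n, rc 1 full (k n) ≤ Q)
    (h1 : Q ≤ rc 1 full (k 1) + 20) (h2 : Q ≤ rc 1 full (k 2) + 20)
    (hW : ∑ n, ∑ i ∈ full, k n i ≤ W) (hR : ∑ i ∈ full, k s i ≤ R) :
    ∀ c ∈ baseR s.val Q W R, c.2 ≤ dot c.1 (vec k) := by
  have h0 := h 0
  have h1' := h 1
  have h2' := h 2
  have z : ∀ k : ℕ → ℕ, dot (massL 0) (vec1 k) = 0 := dot_mass0
  intro c hc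
  rw [baseR, List.mem_append] at hc
  rcases hc with hc | hc
  · simp only [base, List.mem_cons, List.not_mem_nil, or_false] at hc
    rcases hc with rfl | rfl | rfl | rfl | rfl | rfl
    · have e : dot (smulL (-1) (costL 1 31)) (vec k) = - (rc 1 full (k 0) : ℤ) := by
        have := dot_vec (smulL (-1) (costL 1 31)) (massL 0) (massL 0) k rfl rfl
        rw [dot_smulL, dot_costL, toSet_full, z, z] at this
        rw [← show dot (smulL (-1) (costL 1 31) ++ massL 0 ++ massL 0) (vec k) =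
          dot (smulL (-1) (costL 1 31)) (vec k) by
            simp [vec, vec1, costL, smulL, massL, bt, dot], this]
        ring
      simp only
      rw [e]
      omega
    · have e : dot (massL 0 ++ smulL (-1) (costL 1 31)) (vec k) = - (rc 1 full (k 1) : ℤ) := by
        have := dot_vec (massL 0) (smulL (-1) (costL 1 31)) (massL 0) k rfl rfl
        rw [dot_smulL, dot_costL, toSet_full, z, z] at this
        rw [← show dot (massL 0 ++ smulL (-1) (costL 1 31) ++ massL 0) (vec k) =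
          dot (massL 0 ++ smulL (-1) (costL 1 31)) (vec k) by
            simp [vec, vec1, costL, smulL, massL, bt, dot], this]
        ring
      simp only
      rw [e]
      omega
    · have := dot_vec (massL 0) (massL 0) (smulL (-1) (costL 1 31)) k rfl rfl
      rw [dot_smulL, dot_costL, toSet_full, z, z] at this
      simp only
      rw [this]
      omega
    · have e : dot (massL 0 ++ costL 1 31) (vec k) = (rc 1 full (k 1) : ℤ) := by
        have := dot_vec (massL 0) (costL 1 31) (massL 0) k rfl rfl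
        rw [dot_costL, toSet_full, z, z] at this
        rw [← show dot (massL 0 ++ costL 1 31 ++ massL 0) (vec k) =
          dot (massL 0 ++ costL 1 31) (vec k) by
            simp [vec, vec1, costL, massL, bt, dot], this]
        ring
      simp only
      rw [e]
      omega
    · have := dot_vec (massL 0) (massL 0) (costL 1 31) k rfl rfl
      rw [dot_costL, toSet_full, z, z] at this
      simp only
      rw [this]
      omega
    · have := dot_vec (massL 31) (massL 31) (massL 31) k rfl rfl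
      rw [dot_massL, dot_massL, dot_massL, toSet_full] at this
      simp only
      rw [dot_smulL, this]
      rw [Fin.sum_univ_three] at hW
      have hW' : (∑ i ∈ full, (k 0 i : ℤ)) + ∑ i ∈ full, (k 1 i : ℤ) + ∑ i ∈ full, (k 2 i : ℤ) ≤
          W := by exact_mod_cast hW
      linarith
  · rw [List.mem_singleton] at hc
    subst hc
    simp only
    have hR' : (∑ i ∈ full, (k s i : ℤ)) ≤ R := by exact_mod_cast hR
    have e : dot (tri3 (fun n => smulL (-1) (massL (if n = s.val then 31 else 0)))) (vec k) =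
        - ms k s := by
      rw [dot_tri3 _ _ (by rw [smulL_length]; rfl) (by rw [smulL_length]; rfl), dot_smulL,
        dot_smulL, dot_smulL]
      fin_cases s <;> simp [dot_mass31, dot_mass0]
    rw [e, ms]
    linarith

/-- The linear programming fact: some tool is good. -/
theorem lp_good (s : Fin 3) (k : Fin 3 → ℕ → ℕ) (h : ∀ n, rc 1 full (k n) ≤ 10000000)
    (h1 : 10000000 ≤ rc 1 full (k 1) + 20) (h2 : 10000000 ≤ rc 1 full (k 2) + 20)
    (hW : ∑ n, ∑ i ∈ full, k n i ≤ 10010000) (hR : ∑ i ∈ full, k s i ≤ 1450000) :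
    Good (forms s.val) ok 515760000 (vec k) := by
  have hb := base_sound 10000000 10010000 1450000 s k h h1 h2 hW hR
  fin_cases s
  · exact check_good (forms 0) ok 515760000 tree0 _ tree_check0 _ (vec_nonneg k) hb
  · exact check_good (forms 1) ok 515760000 tree1 _ tree_check1 _ (vec_nonneg k) hb
  · exact check_good (forms 2) ok 515760000 tree2 _ tree_check2 _ (vec_nonneg k) hb


lemma four_pow {Z : ℝ} (hZ : 0 < Z) (a G : ℝ) :
    Z * Z ^ a * Z ^ (1000 : ℝ) * Z ^ G = Z ^ (1 + a + 1000 + G) := by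
  rw [Real.rpow_add hZ, Real.rpow_add hZ, Real.rpow_add hZ, Real.rpow_one]

lemma rpow_key (Z C : ℝ) (hZ : 1 ≤ Z) (hC : 0 ≤ C) (N : ℕ) (E B : ℝ) (hN : (N : ℝ) + 1 ≤ B)
    (hE : (N : ℝ) + E + 1 ≤ B) : C * Z * Z ^ N * (1 + Z ^ E) ≤ 2 * C * Z ^ B := by
  have h := real_key Z C (B - 1) hZ hC N E (by linarith) (by linarith)
  rwa [sub_add_cancel] at h

/-- Bound for an admissible box with an entry of small radical. -/
theorem box_bound_sr : ∃ C : ℝ, ∀ (Z : ℕ) (k : Fin 3 → ℕ → ℕ), 2 ≤ Z →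
    (∀ n, rc 1 full (k n) ≤ 10000000) → 10000000 ≤ rc 1 full (k 1) + 20 →
    10000000 ≤ rc 1 full (k 2) + 20 → ∑ n, ∑ i ∈ full, k n i ≤ 10010000 →
    ∀ s : Fin 3, ∑ i ∈ full, k s i ≤ 1450000 →
    ((Box Z 10000000 k).card : ℝ) ≤
      C * (Z : ℝ) ^ ((43 / 100 : ℝ) * (10000000 : ℕ) + 6 / 5 * ∑ i ∈ full, (k s i : ℝ)) := by
  obtain ⟨C1, hC1, t1⟩ := tool_triv (1 / 10000000) (by norm_num)
  obtain ⟨C2, hC2, t2⟩ := tool_pair (1 / 10000000) (by norm_num)
  obtain ⟨C3, hC3, t3⟩ := tool_pairA (1 / 10000000) (by norm_num)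
  obtain ⟨C4, hC4, t4⟩ := tool_K (1 / 10000000) (by norm_num)
  refine ⟨3 * (C1 + C2 + C3 + C4), ?_⟩
  intro Z k hZ h h1 h2 hW s hs
  have hZ1 : (1 : ℝ) ≤ Z := by exact_mod_cast (by omega : 1 ≤ Z)
  have hZ0 : (0 : ℝ) < Z := by linarith
  have hQ : ((Z : ℝ) ^ 10000000) ^ ((1 : ℝ) / 10000000) = Z := by
    rw [← Real.rpow_natCast, ← Real.rpow_mul hZ0.le]
    norm_num
  set m : ℝ := ∑ i ∈ full, (k s i : ℝ) with hm
  have hm0 : 0 ≤ m := by rw [hm]; positivity
  have hms : ((ms k s : ℤ) : ℝ) = m := by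
    rw [ms, hm]
    push_cast
    rfl
  set B : ℝ := (43 / 100 : ℝ) * (10000000 : ℕ) + 6 / 5 * m with hB
  have hBe : B = 4300000 + 6 / 5 * m := by
    rw [hB]
    norm_num
  have hZB : 0 ≤ (Z : ℝ) ^ B := by positivity
  -- the target
  have key : ∀ C : ℝ, 0 ≤ C → C ≤ C1 + C2 + C3 + C4 → ∀ (N : ℕ) (E : ℝ),
      (N : ℝ) ≤ 4298100 + 6 / 5 * m →
      (N : ℝ) + E ≤ 4299000 + 6 / 5 * m →
      C * ((Z : ℝ) ^ 10000000) ^ ((1 : ℝ) / 10000000) * (Z : ℝ) ^ N * (1 + (Z : ℝ) ^ E) ≤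
        3 * (C1 + C2 + C3 + C4) * (Z : ℝ) ^ B := by
    intro C hC hC' N E hN hE
    rw [hQ]
    refine (rpow_key Z C hZ1 hC N E B (by linarith only [hB, hN]) (by linarith only [hB, hE])).trans ?_
    exact mul_le_mul_of_nonneg_right (by linarith) hZB
  obtain ⟨c, hok, hf⟩ := lp_good s k h h1 h2 hW hs
  cases c with
  | triv p q =>
    simp only [ok, Bool.and_eq_true, decide_eq_true_eq] at hok
    obtain ⟨⟨hp, hq⟩, hpq⟩ := hok
    have hf1 := hf _ (List.mem_singleton.2 rfl)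
    rw [dot_addL, dot_subL, dot_tri3 _ _ (by rw [smulL_length]; rfl) (by rw [smulL_length]; rfl),
      dot_smulL, dot_smulL, dot_smulL] at hf1
    refine (t1 Z 10000000 k ⟨p, hp⟩ ⟨q, hq⟩ hZ (by simpa using hpq)).trans ?_
    have hwp := wt_le full subset_rfl (k ⟨p, hp⟩)
    have hwq := wt_le full subset_rfl (k ⟨q, hq⟩)
    have hsum : 120 * ((∑ i ∈ full, (k ⟨p, hp⟩ i : ℤ)) + ∑ i ∈ full, (k ⟨q, hq⟩ i : ℤ)) -
        144 * ms k s ≤ 515760000 := by
      rw [dot_mass_if, dot_mass_if, dot_mass_if] at hf1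
      have h6 := sel_two (fun n => ∑ i ∈ full, (k n i : ℤ)) ⟨p, hp⟩ ⟨q, hq⟩ (by simpa using hpq)
      simp only [eq_comm (a := p), eq_comm (a := q)] at h6
      rw [← h6]
      linarith
    have hsumr : 120 * ((∑ i ∈ full, (k ⟨p, hp⟩ i : ℝ)) + ∑ i ∈ full, (k ⟨q, hq⟩ i : ℝ)) -
        144 * m ≤ 515760000 := by
      rw [← hms]
      exact_mod_cast hsum
    have hN : ((wt full (k ⟨p, hp⟩) + wt full (k ⟨q, hq⟩) : ℕ) : ℝ) ≤ 4298010 + 6 / 5 * m := by
      have : ((wt full (k ⟨p, hp⟩) + wt full (k ⟨q, hq⟩) : ℕ) : ℝ) ≤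
          (∑ i ∈ full, (k ⟨p, hp⟩ i : ℝ)) + ∑ i ∈ full, (k ⟨q, hq⟩ i : ℝ) + 10 := by
        have : wt full (k ⟨p, hp⟩) + wt full (k ⟨q, hq⟩) ≤
          (∑ i ∈ full, k ⟨p, hp⟩ i) + ∑ i ∈ full, k ⟨q, hq⟩ i + 10 := by omega
        exact_mod_cast this
      linarith
    have h5 := key C1 hC1.le (by linarith) (wt full (k ⟨p, hp⟩) + wt full (k ⟨q, hq⟩)) 0
      (by linarith) (by linarith)
    refine le_trans ?_ h5
    apply le_mul_of_one_le_right
    · positivity
    · rw [Real.rpow_zero]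
      norm_num
  | pair j p U0 U1 U2 =>
    simp only [ok, Bool.and_eq_true, Bool.or_eq_true, decide_eq_true_eq] at hok
    obtain ⟨⟨⟨⟨⟨⟨hj1, hj4⟩, hp⟩, hU0⟩, hU1⟩, hU2⟩, hdv⟩ := hok
    set U : Fin 3 → Finset ℕ := ![toSet U0, toSet U1, toSet U2] with hU
    have hUf : ∀ n, U n ⊆ full := by
      intro n
      fin_cases n <;> exact toSet_sub _
    have c0 := toSet_co U0 hU0
    have c1 := toSet_co U1 hU1
    have c2 := toSet_co U2 hU2
    have hf1 := hf _ (List.mem_cons_self ..)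
    have hf2 := hf _ (List.mem_cons_of_mem _ (List.mem_singleton.2 rfl))
    have hA : ∀ (b : Prop) [Decidable b] (V : ℕ) (n : Fin 3),
        dot (if b then smulL (-1) (costL 1 V) else costL j (co V)) (vec1 (k n)) =
          if b then -(rc 1 (toSet V) (k n) : ℤ) else (rc j (toSet (co V)) (k n) : ℤ) := by
      intro b _ V n
      split_ifs
      · rw [dot_smulL, dot_costL]; ring
      · rw [dot_costL]
    rw [dot_baseS] at hf1
    rw [dot_addL, dot_baseS, dot_tri3 _ _ (by rw [smulL_length]; split_ifs <;> rfl)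
      (by rw [smulL_length]; split_ifs <;> rfl), dot_smulL, dot_smulL, dot_smulL, hA, hA, hA]
      at hf2
    simp only [sel, if_true, one_ne_zero, if_false, OfNat.ofNat_ne_zero, OfNat.ofNat_ne_one]
      at hf2
    rw [c0, c1, c2] at hf2
    have hw0 := wt_le (toSet U0) (toSet_sub _) (k 0)
    have hw1 := wt_le (toSet U1) (toSet_sub _) (k 1)
    have hw2 := wt_le (toSet U2) (toSet_sub _) (k 2)
    have hwsum : ∑ n, wt (U n) (k n) = wt (toSet U0) (k 0) + wt (toSet U1) (k 1) +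
        wt (toSet U2) (k 2) := by
      rw [Fin.sum_univ_three]; rfl
    have hNr : ((∑ n, wt (U n) (k n) : ℕ) : ℝ) ≤ (∑ i ∈ toSet U0, (k 0 i : ℝ)) +
        ∑ i ∈ toSet U1, (k 1 i : ℝ) + ∑ i ∈ toSet U2, (k 2 i : ℝ) + 15 := by
      rw [hwsum]
      have : wt (toSet U0) (k 0) + wt (toSet U1) (k 1) + wt (toSet U2) (k 2) ≤
        ∑ i ∈ toSet U0, k 0 i + ∑ i ∈ toSet U1, k 1 i + ∑ i ∈ toSet U2, k 2 i + 15 := by omega
      exact_mod_cast this
    have hf1r : 120 * ((∑ i ∈ toSet U0, (k 0 i : ℝ)) +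
        ∑ i ∈ toSet U1, (k 1 i : ℝ) + ∑ i ∈ toSet U2, (k 2 i : ℝ)) - 144 * m ≤ 515760000 := by
      rw [← hms]
      exact_mod_cast hf1
    have hd0 : p = 0 ∨ (j = 1 ∨ ∀ i ∈ full \ U 0, i < 5 ∧ j ∣ i) := by
      rcases hdv with h | ⟨⟨h | h, _⟩, _⟩
      · exact Or.inr (Or.inl h)
      · exact Or.inl h
      · right; right
        have := divs_spec _ _ h
        rwa [c0] at this
    have hd1 : p = 1 ∨ (j = 1 ∨ ∀ i ∈ full \ U 1, i < 5 ∧ j ∣ i) := by
      rcases hdv with h | ⟨⟨_, h | h⟩, _⟩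
      · exact Or.inr (Or.inl h)
      · exact Or.inl h
      · right; right
        have := divs_spec _ _ h
        rwa [c1] at this
    have hd2 : p = 2 ∨ (j = 1 ∨ ∀ i ∈ full \ U 2, i < 5 ∧ j ∣ i) := by
      rcases hdv with h | ⟨_, h | h⟩
      · exact Or.inr (Or.inl h)
      · exact Or.inl h
      · right; right
        have := divs_spec _ _ h
        rwa [c2] at this
    have fin : ∀ P Q' R : Fin 3, P ≠ Q' → P ≠ R → Q' ≠ R →
        (j = 1 ∨ ∀ i ∈ full \ U Q', i < 5 ∧ j ∣ i) →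
        (j = 1 ∨ ∀ i ∈ full \ U R, i < 5 ∧ j ∣ i) →
        (120 * ((∑ i ∈ toSet U0, (k 0 i : ℤ)) + ∑ i ∈ toSet U1, (k 1 i : ℤ) +
          ∑ i ∈ toSet U2, (k 2 i : ℤ)) - 144 * ms k s + 120 * ((rc j (full \ U Q') (k Q') : ℤ) +
            rc j (full \ U R) (k R) - rc 1 (U P) (k P)) ≤ 515760000) →
        ((Box Z 10000000 k).card : ℝ) ≤ 3 * (C1 + C2 + C3 + C4) * (Z : ℝ) ^ B := by
      intro P Q' R hPQ hPR hQR hdQ hdR hle
      refine (t2 Z 10000000 k j P Q' R U hZ hj1 hj4 hPQ hPR hQR hUf hdQ hdR).trans ?_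
      rw [← Real.rpow_intCast]
      have hler : 120 * ((∑ i ∈ toSet U0, (k 0 i : ℝ)) + ∑ i ∈ toSet U1, (k 1 i : ℝ) +
          ∑ i ∈ toSet U2, (k 2 i : ℝ)) - 144 * m + 120 * ((rc j (full \ U Q') (k Q') : ℝ) +
            rc j (full \ U R) (k R) - rc 1 (U P) (k P)) ≤ 515760000 := by
        rw [← hms]
        exact_mod_cast hle
      apply key C2 hC2.le (by linarith) _ _ (by linarith)
      push_cast at hNr ⊢
      linarith
    have hp3 : p = 0 ∨ p = 1 ∨ p = 2 := by omega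
    rcases hp3 with rfl | rfl | rfl
    · apply fin 0 1 2 (by decide) (by decide) (by decide) (by simpa using hd1)
        (by simpa using hd2)
      simp only [if_true, if_false, zero_ne_one, OfNat.zero_ne_ofNat, one_ne_zero,
        OfNat.ofNat_ne_zero] at hf2
      change _ + 120 * ((rc j (full \ toSet U1) (k 1) : ℤ) + rc j (full \ toSet U2) (k 2) -
        rc 1 (toSet U0) (k 0)) ≤ _
      linarith
    · apply fin 1 0 2 (by decide) (by decide) (by decide) (by simpa using hd0)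
        (by simpa using hd2)
      simp only [if_true, if_false, one_ne_zero, OfNat.one_ne_ofNat, zero_ne_one,
        OfNat.ofNat_ne_one] at hf2
      change _ + 120 * ((rc j (full \ toSet U0) (k 0) : ℤ) + rc j (full \ toSet U2) (k 2) -
        rc 1 (toSet U1) (k 1)) ≤ _
      linarith
    · apply fin 2 0 1 (by decide) (by decide) (by decide) (by simpa using hd0)
        (by simpa using hd1)
      simp only [if_true, if_false, OfNat.ofNat_ne_zero, OfNat.ofNat_ne_one, OfNat.zero_ne_ofNat,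
        OfNat.one_ne_ofNat] at hf2
      change _ + 120 * ((rc j (full \ toSet U0) (k 0) : ℤ) + rc j (full \ toSet U1) (k 1) -
        rc 1 (toSet U2) (k 2)) ≤ _
      linarith
  | pairA j U0 U1 U2 =>
    simp only [ok, Bool.and_eq_true, Bool.or_eq_true, decide_eq_true_eq] at hok
    obtain ⟨⟨⟨⟨⟨hj1, hj4⟩, hU0⟩, hU1⟩, hU2⟩, hdv⟩ := hok
    set U : Fin 3 → Finset ℕ := ![toSet U0, toSet U1, toSet U2] with hU
    have hUf : ∀ n, U n ⊆ full := by
      intro n
      fin_cases n <;> exact toSet_sub _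
    have c0 := toSet_co U0 hU0
    have c1 := toSet_co U1 hU1
    have c2 := toSet_co U2 hU2
    have hf1 := hf _ (List.mem_cons_self ..)
    have hf2 := hf _ (List.mem_cons_of_mem _ (List.mem_singleton.2 rfl))
    rw [dot_baseS] at hf1
    rw [dot_addL, dot_baseS, dot_tri3 _ _ (by rw [smulL_length]; rfl)
      (by rw [smulL_length]; rfl), dot_smulL, dot_smulL, dot_smulL] at hf2
    simp only [if_true, one_ne_zero, if_false, OfNat.ofNat_ne_zero, OfNat.ofNat_ne_one]
      at hf2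
    rw [dot_addL, dot_smulL, dot_costL, dot_costL, dot_costL, dot_costL, toSet_full, c0, c1, c2]
      at hf2
    have hw0 := wt_le (toSet U0) (toSet_sub _) (k 0)
    have hw1 := wt_le (toSet U1) (toSet_sub _) (k 1)
    have hw2 := wt_le (toSet U2) (toSet_sub _) (k 2)
    have hwsum : ∑ n, wt (U n) (k n) = wt (toSet U0) (k 0) + wt (toSet U1) (k 1) +
        wt (toSet U2) (k 2) := by
      rw [Fin.sum_univ_three]; rfl
    have hNr : ((∑ n, wt (U n) (k n) : ℕ) : ℝ) ≤ (∑ i ∈ toSet U0, (k 0 i : ℝ)) +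
        ∑ i ∈ toSet U1, (k 1 i : ℝ) + ∑ i ∈ toSet U2, (k 2 i : ℝ) + 15 := by
      rw [hwsum]
      have : wt (toSet U0) (k 0) + wt (toSet U1) (k 1) + wt (toSet U2) (k 2) ≤
        ∑ i ∈ toSet U0, k 0 i + ∑ i ∈ toSet U1, k 1 i + ∑ i ∈ toSet U2, k 2 i + 15 := by omega
      exact_mod_cast this
    have hf1r : 120 * ((∑ i ∈ toSet U0, (k 0 i : ℝ)) +
        ∑ i ∈ toSet U1, (k 1 i : ℝ) + ∑ i ∈ toSet U2, (k 2 i : ℝ)) - 144 * m ≤ 515760000 := by
      rw [← hms]
      exact_mod_cast hf1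
    have hf2r : 120 * ((∑ i ∈ toSet U0, (k 0 i : ℝ)) + ∑ i ∈ toSet U1, (k 1 i : ℝ) +
        ∑ i ∈ toSet U2, (k 2 i : ℝ)) - 144 * m + (120 * (rc 1 (full \ toSet U0) (k 0) : ℝ) +
        120 * (rc j (full \ toSet U1) (k 1) : ℝ) + 120 * ((rc j (full \ toSet U2) (k 2) : ℝ) +
        -1 * (rc 1 full (k 2) : ℝ))) ≤ 515760000 := by
      rw [← hms]
      exact_mod_cast hf2
    have hd1 : j = 1 ∨ ∀ i ∈ full \ U 1, i < 5 ∧ j ∣ i := by
      rcases hdv with h | ⟨h, _⟩
      · exact Or.inl h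
      · right
        have := divs_spec _ _ h
        rwa [c1] at this
    have hd2 : j = 1 ∨ ∀ i ∈ full \ U 2, i < 5 ∧ j ∣ i := by
      rcases hdv with h | ⟨_, h⟩
      · exact Or.inl h
      · right
        have := divs_spec _ _ h
        rwa [c2] at this
    refine (t3 Z 10000000 k j U hZ hj1 hj4 hUf hd1 hd2).trans ?_
    rw [← Real.rpow_intCast]
    apply key C3 hC3.le (by linarith) _ _ (by linarith only [hNr, hf1r])
    have e0 : U 0 = toSet U0 := rfl
    have e1 : U 1 = toSet U1 := rfl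
    have e2 : U 2 = toSet U2 := rfl
    rw [e0, e1, e2]
    push_cast at hNr ⊢
    linarith
  | kt Tq Sq Tr Sr =>
    simp only [ok, Bool.and_eq_true, Bool.or_eq_true, decide_eq_true_eq] at hok
    obtain ⟨⟨⟨hTq, hTr⟩, hSq⟩, hSr⟩ := hok
    have hSq' : Sq = 0 ∨ Sq = 4 ∨ Sq = 8 ∨ Sq = 12 := by tauto
    have hSr' : Sr = 0 ∨ Sr = 4 ∨ Sr = 8 ∨ Sr = 12 := by tauto
    have hqr : qf s ≠ rf s := by fin_cases s <;> decide
    have hsq : s ≠ qf s := by fin_cases s <;> decide
    have hsr : s ≠ rf s := by fin_cases s <;> decide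
    have hrQ : 10000000 ≤ rc 1 full (k (rf s)) + 20 := by
      fin_cases s
      · exact h2
      · exact h2
      · exact h1
    set T : Fin 3 → Finset ℕ := fun n => if n = qf s then toSet Tq else toSet Tr with hT
    set S : Fin 3 → Finset ℕ := fun n => if n = qf s then toSet Sq else toSet Sr with hS
    have eTq : T (qf s) = toSet Tq := by simp [hT]
    have eTr : T (rf s) = toSet Tr := by simp [hT, hqr.symm]
    have eSq : S (qf s) = toSet Sq := by simp [hS]
    have eSr : S (rf s) = toSet Sr := by simp [hS, hqr.symm]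
    have hTf : ∀ n, T n ⊆ full := by
      intro n
      simp only [hT]
      split_ifs <;> exact toSet_sub _
    have hSf : ∀ n, S n ⊆ {3, 4} := by
      intro n
      simp only [hS]
      split_ifs
      · exact toSet_S _ hSq'
      · exact toSet_S _ hSr'
    have hTS : ∀ n, Disjoint (T n) (S n) := by
      intro n
      simp only [hT, hS]
      split_ifs
      · exact toSet_disj _ _ hTq hSq'
      · exact toSet_disj _ _ hTr hSr'
    have cq := toSet_co_add Tq Sq hTq hSq'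
    have cr := toSet_co_add Tr Sr hTr hSr'
    -- the quantities
    set x : ℝ := (xc (toSet Tq) (toSet Sq) (k (qf s)) : ℝ) + xc (toSet Tr) (toSet Sr) (k (rf s))
      with hx
    set zz : ℝ := (rc 3 (toSet Sq) (k (qf s)) : ℝ) + rc 3 (toSet Sr) (k (rf s)) with hzz
    set nu : ℝ := (rc 1 full (k (rf s)) : ℝ) with hnu
    set f : ℝ := (∑ i ∈ full \ (toSet Tq ∪ toSet Sq), (k (qf s) i : ℝ)) +
      ∑ i ∈ full \ (toSet Tr ∪ toSet Sr), (k (rf s) i : ℝ) + m with hfdef
    have hform : ∀ cs cx cz cn : ℤ, ktForm s.val Tq Sq Tr Sr cs cx cz cn ∈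
        forms s.val (.kt Tq Sq Tr Sr) →
        120 * f - 144 * m + cs * m + cx * x + cz * zz + cn * nu ≤ 515760000 := by
      intro cs cx cz cn hmem
      have h7 := hf _ hmem
      rw [dot_ktForm, cq, cr] at h7
      have h8 : (120 * ((∑ i ∈ full \ (toSet Tq ∪ toSet Sq), (k (qf s) i : ℝ)) +
          ∑ i ∈ full \ (toSet Tr ∪ toSet Sr), (k (rf s) i : ℝ) + (ms k s : ℝ)) -
          144 * (ms k s : ℝ) + cs * (ms k s : ℝ) +
          cx * ((xc (toSet Tq) (toSet Sq) (k (qf s)) : ℝ) + xc (toSet Tr) (toSet Sr) (k (rf s))) +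
          cz * ((rc 3 (toSet Sq) (k (qf s)) : ℝ) + rc 3 (toSet Sr) (k (rf s))) +
          cn * (rc 1 full (k (rf s)) : ℝ)) ≤ 515760000 := by exact_mod_cast h7
      rw [hms] at h8
      exact h8
    have g1 := hform 80 40 40 0 (by simp [forms])
    have g2 := hform 40 20 80 0 (by simp [forms])
    have g3 := hform 80 160 40 (-120) (by simp [forms])
    have g4 := hform 40 80 80 (-40) (by simp [forms])
    have g5 := hform 20 40 100 (-20) (by simp [forms])
    have g6 := hform 40 200 80 (-160) (by simp [forms])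
    have g7 := hform 90 120 120 (-90) (by simp [forms])
    have g8 := hform 45 60 120 (-45) (by simp [forms])
    have g9 := hform 90 240 120 (-210) (by simp [forms])
    push_cast at g1 g2 g3 g4 g5 g6 g7 g8 g9
    set E : ℝ := max ((x + zz + 2 * m) / 3) (max ((2 * (x + zz) + m - nu) / 3)
      (x + zz + 3 / 4 * m - 3 / 4 * nu)) with hE
    have hcase : E = (x + zz + 2 * m) / 3 ∨ E = (2 * (x + zz) + m - nu) / 3 ∨
        E = x + zz + 3 / 4 * m - 3 / 4 * nu := by
      rcases max_choice ((x + zz + 2 * m) / 3) (max ((2 * (x + zz) + m - nu) / 3)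
        (x + zz + 3 / 4 * m - 3 / 4 * nu)) with h9 | h9
      · exact Or.inl (hE.trans h9)
      · rcases max_choice ((2 * (x + zz) + m - nu) / 3)
          (x + zz + 3 / 4 * m - 3 / 4 * nu) with h10 | h10
        · exact Or.inr (Or.inl (hE.trans (h9.trans h10)))
        · exact Or.inr (Or.inr (hE.trans (h9.trans h10)))
    have b1 : f + E ≤ 4298000 + 6 / 5 * m := by
      rcases hcase with h9 | h9 | h9 <;> rw [h9] <;> linarith only [g1, g4, g7]
    have b2 : f + (E + zz) / 2 ≤ 4298000 + 6 / 5 * m := by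
      rcases hcase with h9 | h9 | h9 <;> rw [h9] <;> linarith only [g2, g5, g8]
    have b3 : f + (E + x - nu) ≤ 4298000 + 6 / 5 * m := by
      rcases hcase with h9 | h9 | h9 <;> rw [h9] <;> linarith only [g3, g6, g9]
    have ht := t4 Z 10000000 k s (qf s) (rf s) T S E hZ hsq hsr hqr hTf hSf hTS hrQ
      (by
        rw [eTq, eTr, eSq, eSr]
        refine le_trans (le_of_eq ?_) (le_max_left _ _)
        rw [hx, hzz, hm]
        ring)
      (by
        rw [eTq, eTr, eSq, eSr]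
        refine le_trans (le_of_eq ?_) ((le_max_left _ _).trans (le_max_right _ _))
        rw [hx, hzz, hm, hnu]
        ring)
      (by
        rw [eTq, eTr, eSq, eSr]
        refine le_trans (le_of_eq ?_) ((le_max_right _ _).trans (le_max_right _ _))
        rw [hx, hzz, hm, hnu]
        ring)
    rw [eTq, eTr, eSq, eSr] at ht
    refine ht.trans ?_
    rw [hQ]
    have e1 : (E + rc 3 (toSet Sq) (k (qf s)) + rc 3 (toSet Sr) (k (rf s))) / 2 = (E + zz) / 2 := by
      rw [hzz]; ring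
    have e2 : E + xc (toSet Tq) (toSet Sq) (k (qf s)) + xc (toSet Tr) (toSet Sr) (k (rf s)) -
        rc 1 full (k (rf s)) = E + x - nu := by
      rw [hx, hnu]; ring
    rw [e1, e2]
    have e3 : (Z : ℝ) ^ (∑ i ∈ full \ (toSet Tq ∪ toSet Sq), k (qf s) i +
        ∑ i ∈ full \ (toSet Tr ∪ toSet Sr), k (rf s) i + ∑ i ∈ full, k s i) = (Z : ℝ) ^ f := by
      rw [← Real.rpow_natCast]
      congr 1
      rw [hfdef, hm]
      push_cast
      ring
    rw [e3]
    have e4 : (Z : ℝ) ^ 1000 = (Z : ℝ) ^ (1000 : ℝ) := by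
      rw [← Real.rpow_natCast]
      norm_num
    rw [e4]
    have e5 : ∀ G : ℝ, f + G ≤ 4298000 + 6 / 5 * m →
        (Z : ℝ) * (Z : ℝ) ^ f * (Z : ℝ) ^ (1000 : ℝ) * (Z : ℝ) ^ G ≤ (Z : ℝ) ^ B := by
      intro G hG
      rw [four_pow hZ0 f G]
      exact Real.rpow_le_rpow_of_exponent_le hZ1 (by linarith)
    have i1 := e5 E b1
    have i2 := e5 ((E + zz) / 2) b2
    have i3 := e5 (E + x - nu) b3
    calc C4 * (Z : ℝ) * (Z : ℝ) ^ f * (Z : ℝ) ^ (1000 : ℝ) *
        ((Z : ℝ) ^ E + (Z : ℝ) ^ ((E + zz) / 2) + (Z : ℝ) ^ (E + x - nu))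
        = C4 * ((Z : ℝ) * (Z : ℝ) ^ f * (Z : ℝ) ^ (1000 : ℝ) * (Z : ℝ) ^ E +
          (Z : ℝ) * (Z : ℝ) ^ f * (Z : ℝ) ^ (1000 : ℝ) * (Z : ℝ) ^ ((E + zz) / 2) +
          (Z : ℝ) * (Z : ℝ) ^ f * (Z : ℝ) ^ (1000 : ℝ) * (Z : ℝ) ^ (E + x - nu)) := by ring
      _ ≤ C4 * ((Z : ℝ) ^ B + (Z : ℝ) ^ B + (Z : ℝ) ^ B) := by
        apply mul_le_mul_of_nonneg_left _ hC4.le
        linarith only [i1, i2, i3]
      _ = 3 * C4 * (Z : ℝ) ^ B := by ring
      _ ≤ 3 * (C1 + C2 + C3 + C4) * (Z : ℝ) ^ B := by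
        apply mul_le_mul_of_nonneg_right (by linarith only [hC1, hC2, hC3]) hZB

end Pool.Agent.Helper1.SR
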