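import Mathlib
import Pool.Agent.Helper92.ABC.Sem

set_option autoImplicit false

/-!
# The tools and their forms for the project SR

The value of a form is `120` times the exponent minus `144` times the mass of the entry `s`.
-/

namespace Pool.Agent.Helper1.SR

open Finset Pool.Agent.Helper92.ABC

/-- Tools. Sets of classes are coded by bit masks. -/
inductive Code where
  | triv (p q : ℕ)
  | pair (j p U0 U1 U2 : ℕ)
  | pairA (j U0 U1 U2 : ℕ)
  | kt (Tq Sq Tr Sr : ℕ)

/-- The list of all coefficients from the three blocks. -/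
def tri3 (f : ℕ → List ℤ) : List ℤ := f 0 ++ f 1 ++ f 2

/-- Selection of one of three numbers. -/
def sel (U0 U1 U2 n : ℕ) : ℕ := if n = 0 then U0 else if n = 1 then U1 else U2

/-- `-144` times the mass of the entry `s`. -/
def subL (s : ℕ) : List ℤ := tri3 (fun n => smulL (-144) (massL (if n = s then 31 else 0)))

/-- `120` times the mass of the fixed classes minus `144` times the mass of `s`. -/
def baseS (s U0 U1 U2 : ℕ) : List ℤ :=
  addL (tri3 (fun n => smulL 120 (massL (sel U0 U1 U2 n)))) (subL s)

/-- Coefficients of the remainders modulo 3. -/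
def remL (S : ℕ) : List ℤ := [bt S 1, 2 * bt S 2, 0, bt S 4, 2 * bt S 5, 0]

/-- Coefficients of `xc`. -/
def xL (T S : ℕ) : List ℤ := addL (costL 1 T) (remL S)

/-- The index `q` for the tool `kt`. -/
def qi (s : ℕ) : ℕ := if s = 0 then 1 else 0

/-- The index `r` for the tool `kt`. -/
def ri (s : ℕ) : ℕ := if s = 2 then 1 else 2

/-- The forms of the tool `kt`. -/
def ktForm (s Tq Sq Tr Sr : ℕ) (cs cx cz cn : ℤ) : List ℤ :=
  addL (addL (tri3 (fun n => smulL 120 (massL (if n = s then 31 else
      if n = qi s then co (Tq + Sq) else co (Tr + Sr))))) (subL s))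
    (tri3 (fun n => if n = s then smulL cs (massL 31) else
      if n = qi s then addL (smulL cx (xL Tq Sq)) (smulL cz (costL 3 Sq)) else
        addL (addL (smulL cx (xL Tr Sr)) (smulL cz (costL 3 Sr))) (smulL cn (costL 1 31))))

/-- The forms of a tool. -/
def forms (s : ℕ) : Code → List (List ℤ)
  | .triv p q => [addL (tri3 (fun n => smulL 120 (massL (if n = p ∨ n = q then 31 else 0))))
      (subL s)]
  | .pair j p U0 U1 U2 => [baseS s U0 U1 U2, addL (baseS s U0 U1 U2)
      (tri3 (fun n => smulL 120 (if n = p then smulL (-1) (costL 1 (sel U0 U1 U2 n)) else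
        costL j (co (sel U0 U1 U2 n)))))]
  | .pairA j U0 U1 U2 => [baseS s U0 U1 U2, addL (baseS s U0 U1 U2)
      (tri3 (fun n => smulL 120 (if n = 0 then costL 1 (co U0) else if n = 1 then costL j (co U1)
        else addL (costL j (co U2)) (smulL (-1) (costL 1 31)))))]
  | .kt Tq Sq Tr Sr => [ktForm s Tq Sq Tr Sr 80 40 40 0, ktForm s Tq Sq Tr Sr 40 20 80 0,
      ktForm s Tq Sq Tr Sr 80 160 40 (-120), ktForm s Tq Sq Tr Sr 40 80 80 (-40),
      ktForm s Tq Sq Tr Sr 20 40 100 (-20), ktForm s Tq Sq Tr Sr 40 200 80 (-160),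
      ktForm s Tq Sq Tr Sr 90 120 120 (-90), ktForm s Tq Sq Tr Sr 45 60 120 (-45),
      ktForm s Tq Sq Tr Sr 90 240 120 (-210)]

/-- Side conditions of the tools. -/
def ok : Code → Bool
  | .triv p q => decide (p < 3) && decide (q < 3) && decide (p ≠ q)
  | .pair j p U0 U1 U2 => decide (1 ≤ j) && decide (j ≤ 4) && decide (p < 3) &&
      decide (U0 < 32) && decide (U1 < 32) && decide (U2 < 32) &&
      (decide (j = 1) || ((decide (p = 0) || divs j (co U0)) && (decide (p = 1) || divs j (co U1))
        && (decide (p = 2) || divs j (co U2))))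
  | .pairA j U0 U1 U2 => decide (1 ≤ j) && decide (j ≤ 4) && decide (U0 < 32) &&
      decide (U1 < 32) && decide (U2 < 32) &&
      (decide (j = 1) || (divs j (co U1) && divs j (co U2)))
  | .kt Tq Sq Tr Sr => decide (Tq < 4) && decide (Tr < 4) &&
      (decide (Sq = 0) || decide (Sq = 4) || decide (Sq = 8) || decide (Sq = 12)) &&
      (decide (Sr = 0) || decide (Sr = 4) || decide (Sr = 8) || decide (Sr = 12))

/-- The base constraints. -/
def baseR (s Q W R : ℕ) : List Con :=
  base Q W ++ [(tri3 (fun n => smulL (-1) (massL (if n = s then 31 else 0))), -(R : ℤ))]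

end Pool.Agent.Helper1.SR
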