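import Mathlib
import Pool.Agent.Helper92.ABC.Assembly
import Pool.Agent.Helper11.ABC.Final
import Pool.Agent.Helper11.ABC.FinalSmall
import Pool.Agent.Helper1.SR.Asm

set_option autoImplicit false

/-!
# Triples one of whose entries has a small radical: the count

From the bound for every box (`box_bound_sr`) to the number of triples.
-/

namespace Pool.Agent.Helper1.SR

open Finset Pool.Agent.Helper92.ABC

/-- The count for `ρ ≤ 29/200`. -/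
theorem count_small : ∃ C : ℝ, ∀ ρ : ℝ, 0 ≤ ρ → ρ * (10000000 : ℕ) ≤ (1450000 : ℕ) → ∀ X : ℕ,
    (((Icc 1 X ×ˢ Icc 1 X).filter (fun t : ℕ × ℕ =>
      t.1.Coprime t.2 ∧ t.1 + t.2 ≤ X ∧
        ((∏ p ∈ (t.1 * t.2 * (t.1 + t.2)).primeFactors, p : ℕ) : ℝ) ≤
          ((t.1 + t.2 : ℕ) : ℝ) ^ (1001 / 1000 : ℝ) ∧
        ∃ n : Fin 3, ((radn (num t n) : ℕ) : ℝ) ≤ ((t.1 + t.2 : ℕ) : ℝ) ^ ρ)).card : ℝ) ≤
      C * (X : ℝ) ^ (43 / 100 + 6 / 5 * ρ : ℝ) :=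
  Pool.Agent.Helper11.ABCSmall.final_of_box_small 10000000 10010000 1450000 (by norm_num)
    (43 / 100) (1001 / 1000) (6 / 5) (by norm_num) (by norm_num) (by norm_num) (by norm_num)
    (by
      obtain ⟨C, hC⟩ := box_bound_sr
      exact ⟨C, fun Z k hZ h h1 h2 hW s hs => hC Z k hZ h h1 h2 hW s hs⟩)

/-- The count for all `ρ ≥ 0`. -/
theorem count_all : ∃ C : ℝ, ∀ ρ : ℝ, 0 ≤ ρ → ∀ X : ℕ,
    (((Icc 1 X ×ˢ Icc 1 X).filter (fun t : ℕ × ℕ =>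
      t.1.Coprime t.2 ∧ t.1 + t.2 ≤ X ∧
        ((∏ p ∈ (t.1 * t.2 * (t.1 + t.2)).primeFactors, p : ℕ) : ℝ) ≤
          ((t.1 + t.2 : ℕ) : ℝ) ^ (1001 / 1000 : ℝ) ∧
        (((∏ p ∈ t.1.primeFactors, p : ℕ) : ℝ) ≤ ((t.1 + t.2 : ℕ) : ℝ) ^ ρ ∨
          ((∏ p ∈ t.2.primeFactors, p : ℕ) : ℝ) ≤ ((t.1 + t.2 : ℕ) : ℝ) ^ ρ ∨
          ((∏ p ∈ (t.1 + t.2).primeFactors, p : ℕ) : ℝ) ≤
            ((t.1 + t.2 : ℕ) : ℝ) ^ ρ))).card : ℝ) ≤
      C * (X : ℝ) ^ (43 / 100 + 6 / 5 * ρ : ℝ) := by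
  classical
  obtain ⟨C₁, h₁⟩ := count_small
  obtain ⟨C₂, h₂⟩ := final_of_box 10000000 10010000 (by norm_num) (603 / 1000)
    (1001 / 1000) (by norm_num) (by norm_num) (by norm_num) box_bound
  refine ⟨|C₁| + |C₂|, fun ρ hρ X => ?_⟩
  rcases Nat.eq_zero_or_pos X with hX | hX
  · subst hX
    simp only [Finset.Icc_eq_empty (by norm_num : ¬ (1 : ℕ) ≤ 0), Finset.empty_product,
      Finset.filter_empty, Finset.card_empty, Nat.cast_zero]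
    positivity
  have hX1 : (1 : ℝ) ≤ X := by exact_mod_cast hX
  have hX0 : (0 : ℝ) ≤ X := by linarith
  rcases le_or_gt ρ (29 / 200) with hr | hr
  · refine le_trans ?_ (mul_le_mul_of_nonneg_right
      ((le_abs_self C₁).trans (le_add_of_nonneg_right (abs_nonneg C₂))) (by positivity))
    refine le_trans ?_ (h₁ ρ hρ (by push_cast; linarith) X)
    refine Nat.cast_le.2 (Finset.card_le_card fun t ht => ?_)
    rw [Finset.mem_filter] at ht ⊢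
    obtain ⟨h1, h2, h3, h4, h5⟩ := ht
    refine ⟨h1, h2, h3, h4, ?_⟩
    rcases h5 with h5 | h5 | h5
    · exact ⟨0, h5⟩
    · exact ⟨1, h5⟩
    · exact ⟨2, h5⟩
  · have hle : (X : ℝ) ^ (603 / 1000 : ℝ) ≤ (X : ℝ) ^ (43 / 100 + 6 / 5 * ρ : ℝ) :=
      Real.rpow_le_rpow_of_exponent_le hX1 (by linarith)
    calc _ ≤ C₂ * (X : ℝ) ^ (603 / 1000 : ℝ) := by
          refine le_trans ?_ (h₂ X)
          refine Nat.cast_le.2 (Finset.card_le_card fun t ht => ?_)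
          rw [Finset.mem_filter] at ht ⊢
          exact ⟨ht.1, ht.2.1, ht.2.2.1, ht.2.2.2.1⟩
      _ ≤ (|C₁| + |C₂|) * (X : ℝ) ^ (603 / 1000 : ℝ) :=
          mul_le_mul_of_nonneg_right
            ((le_abs_self C₂).trans (le_add_of_nonneg_left (abs_nonneg C₁))) (by positivity)
      _ ≤ _ := mul_le_mul_of_nonneg_left hle (by positivity)

end Pool.Agent.Helper1.SR
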